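import Pool.Agent.P8H14.CN.Stm2
import Pool.Agent.P8H61.CN.Avg

/-! Project CN, package MOM: all moments of the class numbers `h(p)` (helper82, after helper61's Avg) -/

set_option autoImplicit false

namespace Pool.Agent.P8H82.CN

open Finset Filter NumberField Pool.Agent.H38R2.CG Pool.Agent.P8H14.CN Pool.Agent.P8H61.CN
open scoped Classical

lemma triv_prime (C : ℝ) (hC : 0 < C)
    (htrv : ∀ (K : Type) [Field K] [NumberField K] (d : ℕ), 1 < d → Squarefree d →
      Module.finrank ℚ K = 2 → (∃ x : K, x ^ 2 = (d : K)) →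
        (classNumber K : ℝ) ≤ C * Real.sqrt (d : ℝ) * Real.log d)
    (X p : ℕ) (hX : 2 ≤ X) (hp : p.Prime) (hpX : p ≤ X) :
    (hq p : ℝ) ≤ C * Real.sqrt X * Real.log X := by
  have hX1 : (1 : ℝ) < X := by exact_mod_cast (by omega : 1 < X)
  have hl : 0 < Real.log X := Real.log_pos hX1
  have hpX' : (p : ℝ) ≤ X := by exact_mod_cast hpX
  have hp1 : (1 : ℝ) < p := by exact_mod_cast hp.one_lt
  have hlp : 0 < Real.log p := Real.log_pos hp1
  have hs : 0 < Real.sqrt X := Real.sqrt_pos.mpr (by linarith)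
  have hsp : Real.sqrt p ≤ Real.sqrt X := Real.sqrt_le_sqrt hpX'
  have hA : 0 ≤ C * Real.sqrt X * Real.log X := by positivity
  rcases hq_cases p with h0 | ⟨K, i1, i2, hK1, hK2, hK3⟩
  · rw [h0]
    push_cast
    exact hA
  · have hsq : Squarefree p := (Nat.prime_iff.mp hp).irreducible.squarefree
    rw [← hK3]
    refine (htrv K p hp.one_lt hsq hK1 hK2).trans ?_
    have h1 : C * Real.sqrt p ≤ C * Real.sqrt X := mul_le_mul_of_nonneg_left hsp hC.le
    have h2 : Real.log p ≤ Real.log X := Real.log_le_log (by linarith) hpX'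
    exact mul_le_mul h1 h2 hlp.le (by positivity)

lemma one_prime_pow (C δ : ℝ) (hC : 0 < C) (hδ : 0 < δ) (hδ2 : δ < 1 / 2)
    (htrv : ∀ (K : Type) [Field K] [NumberField K] (d : ℕ), 1 < d → Squarefree d →
      Module.finrank ℚ K = 2 → (∃ x : K, x ^ 2 = (d : K)) →
        (classNumber K : ℝ) ≤ C * Real.sqrt (d : ℝ) * Real.log d)
    (k X p : ℕ) (hX : 2 ≤ X) (hp : p.Prime) (hpX : p ≤ X) :
    (hq p : ℝ) ^ k ≤ (if (p : ℝ) ≤ Real.sqrt X then (C * Real.sqrt X * Real.log X) ^ k else 0) +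
      (if ¬ GoodC δ p then (C * Real.sqrt X * Real.log X) ^ k else 0) +
      (4 * Real.sqrt X / Real.log X ^ (3 / 2 - δ)) ^ k := by
  have hX1 : (1 : ℝ) < X := by exact_mod_cast (by omega : 1 < X)
  have hl : 0 < Real.log X := Real.log_pos hX1
  have hs : 0 < Real.sqrt X := Real.sqrt_pos.mpr (by linarith)
  have hA : 0 ≤ (C * Real.sqrt X * Real.log X) ^ k := by positivity
  have hB : 0 ≤ (4 * Real.sqrt X / Real.log X ^ (3 / 2 - δ)) ^ k := by positivity
  have h0 : (0 : ℝ) ≤ hq p := Nat.cast_nonneg _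
  have ht := pow_le_pow_left₀ h0 (triv_prime C hC htrv X p hX hp hpX) k
  have h1 := one_prime C δ hC hδ hδ2 htrv X p hX hp hpX
  by_cases hc1 : (p : ℝ) ≤ Real.sqrt X
  · rw [if_pos hc1]
    by_cases hc2 : ¬ GoodC δ p
    · rw [if_pos hc2]
      linarith
    · rw [if_neg hc2]
      linarith
  · by_cases hc2 : ¬ GoodC δ p
    · rw [if_neg hc1, if_pos hc2]
      linarith
    · rw [if_neg hc1, if_neg hc2, zero_add, zero_add] at h1
      rw [if_neg hc1, if_neg hc2, zero_add, zero_add]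
      exact pow_le_pow_left₀ h0 h1 k

theorem mom : S_FIN → S_TRV → S_MOM := by
  rintro hfin ⟨C, hC, htrv⟩ δ hδ hδ2 k hk
  obtain ⟨M1, hM1⟩ := hfin δ hδ hδ2
  obtain ⟨a, ha⟩ : ∃ a : ℝ, a = k + (1 + (3 / 2 - δ) * k) := ⟨_, rfl⟩
  have hk0 : (0 : ℝ) ≤ k := Nat.cast_nonneg _
  have ha0 : 0 ≤ a := by
    have : 0 ≤ (3 / 2 - δ) * k := mul_nonneg (by linarith) hk0
    linarith
  obtain ⟨B1, hB1, hb1⟩ := pow_exp a (δ / 16) ha0 (by linarith)
  obtain ⟨B2, hB2, hb2⟩ := pow_exp a 1 ha0 (by norm_num)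
  refine ⟨C ^ k * (2 ^ a * B2) + C ^ k * |M1| * B1 + 4 ^ k * (2 * Real.log 4 + 2), ?_⟩
  intro X hX
  have hX1 : (1 : ℝ) < X := by exact_mod_cast (by omega : 1 < X)
  have hX0 : (0 : ℝ) < X := by linarith
  set l := Real.log X with hl'
  have hl : 0 < l := Real.log_pos hX1
  set s := Real.sqrt X with hs'
  have hs : 0 < s := Real.sqrt_pos.mpr hX0
  have hss : s * s = X := Real.mul_self_sqrt hX0.le
  set A := l ^ (1 + (3 / 2 - δ) * k) with hA'
  have hA : 0 < A := Real.rpow_pos_of_pos hl _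
  have hX32 : (X : ℝ) ^ (1 + (k : ℝ) / 2) = X * s ^ k := by
    rw [hs', Real.sqrt_eq_rpow, Real.rpow_add hX0, Real.rpow_one, ← Real.rpow_natCast, ← Real.rpow_mul hX0.le]
    congr 2
    ring
  have hA7 : l ^ a = l ^ k * A := by
    rw [hA', ha, Real.rpow_add hl, Real.rpow_natCast]
  have hA3 : A = l * (l ^ (3 / 2 - δ)) ^ k := by
    rw [hA', Real.rpow_add hl, Real.rpow_one, Real.rpow_mul hl.le, Real.rpow_natCast]
  have hB3 : 0 < l ^ (3 / 2 - δ) := Real.rpow_pos_of_pos hl _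
  rw [hX32, le_div_iff₀ hA]
  -- the three counts
  have hn1 : ((((Icc 2 X).filter Nat.Prime).filter (fun p : ℕ => (p : ℝ) ≤ s)).card : ℝ) ≤ s := by
    have h1 : ((Icc 2 X).filter Nat.Prime).filter (fun p : ℕ => (p : ℝ) ≤ s) ⊆ Icc 1 ⌊s⌋₊ := by
      intro p hp
      rw [mem_filter, mem_filter, mem_Icc] at hp
      rw [mem_Icc]
      exact ⟨by omega, Nat.le_floor hp.2⟩
    have h2 := card_le_card h1
    rw [Nat.card_Icc, Nat.add_sub_cancel] at h2
    calc ((((Icc 2 X).filter Nat.Prime).filter (fun p : ℕ => (p : ℝ) ≤ s)).card : ℝ) ≤ (⌊s⌋₊ : ℝ) := by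
          exact_mod_cast h2
      _ ≤ s := Nat.floor_le hs.le
  have hn2 : ((((Icc 2 X).filter Nat.Prime).filter (fun p : ℕ => ¬ GoodC δ p)).card : ℝ) ≤
      |M1| * X * Real.exp (-(l ^ (δ / 16))) := by
    have h1 : ((Icc 2 X).filter Nat.Prime).filter (fun p : ℕ => ¬ GoodC δ p) ⊆
        (Icc 2 X).filter (fun d => Squarefree d ∧ ¬ GoodC δ d) := by
      intro p hp
      rw [mem_filter, mem_filter] at hp
      rw [mem_filter]
      exact ⟨hp.1.1, (Nat.prime_iff.mp hp.1.2).irreducible.squarefree, hp.2⟩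
    have h2 : ((((Icc 2 X).filter Nat.Prime).filter (fun p : ℕ => ¬ GoodC δ p)).card : ℝ) ≤
        (((Icc 2 X).filter (fun d => Squarefree d ∧ ¬ GoodC δ d)).card : ℝ) := by
      exact_mod_cast card_le_card h1
    refine h2.trans ((hM1 X hX).trans ?_)
    have h3 : M1 ≤ |M1| := le_abs_self _
    have h4 : 0 < Real.exp (-(l ^ (δ / 16))) := Real.exp_pos _
    exact mul_le_mul_of_nonneg_right (mul_le_mul_of_nonneg_right h3 hX0.le) h4.le
  have hn3 := card_primes X hX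
  rw [← hl'] at hn3
  obtain ⟨D, hDd⟩ : ∃ D, D = (C * s * l) ^ k := ⟨_, rfl⟩
  obtain ⟨E, hEd⟩ : ∃ E, E = (4 * s / l ^ (3 / 2 - δ)) ^ k := ⟨_, rfl⟩
  have hD : 0 ≤ D := by rw [hDd]; positivity
  have hE : 0 ≤ E := by rw [hEd]; positivity
  have hsum : ∑ p ∈ (Icc 2 X).filter Nat.Prime, (hq p : ℝ) ^ k ≤
      s * D + (|M1| * X * Real.exp (-(l ^ (δ / 16)))) * D + ((2 * Real.log 4 + 2) * X / l) * E := by
    calc ∑ p ∈ (Icc 2 X).filter Nat.Prime, (hq p : ℝ) ^ k
        ≤ ∑ p ∈ (Icc 2 X).filter Nat.Prime, ((if (p : ℝ) ≤ s then D else 0) +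
          (if ¬ GoodC δ p then D else 0) + E) := by
          apply sum_le_sum
          intro p hp
          rw [mem_filter, mem_Icc] at hp
          rw [hDd, hEd]
          exact one_prime_pow C δ hC hδ hδ2 htrv k X p hX hp.2 hp.1.2
      _ = ((((Icc 2 X).filter Nat.Prime).filter (fun p : ℕ => (p : ℝ) ≤ s)).card : ℝ) * D +
          ((((Icc 2 X).filter Nat.Prime).filter (fun p : ℕ => ¬ GoodC δ p)).card : ℝ) * D +
          (((Icc 2 X).filter Nat.Prime).card : ℝ) * E := by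
          rw [sum_add_distrib, sum_add_distrib, sum_const, nsmul_eq_mul, ← sum_filter, ← sum_filter, sum_const,
            sum_const, nsmul_eq_mul, nsmul_eq_mul]
      _ ≤ _ := by
          have e1 := mul_le_mul_of_nonneg_right hn1 hD
          have e2 := mul_le_mul_of_nonneg_right hn2 hD
          have e3 := mul_le_mul_of_nonneg_right hn3 hE
          linarith
  have hb1' := hb1 l hl
  rw [hA7] at hb1'
  have hb2' := hb2 (l / 2) (by linarith)
  rw [Real.rpow_one, Real.div_rpow hl.le (by norm_num), hA7] at hb2'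
  have hes : Real.exp (-(l / 2)) * s = 1 := by
    have h1 : Real.exp l = X := Real.exp_log hX0
    have h2 : s = Real.exp (l / 2) := by
      rw [hs', ← h1, Real.sqrt_eq_rpow, ← Real.exp_mul]
      congr 1
      ring
    rw [h2, ← Real.exp_add]
    simp
  have h2p : 0 < (2 : ℝ) ^ a := by positivity
  have hb3 : l ^ k * A ≤ 2 ^ a * B2 * s := by
    have h1 : l ^ k * A / 2 ^ a * Real.exp (-(l / 2)) * s ≤ B2 * s :=
      mul_le_mul_of_nonneg_right hb2' hs.le
    rw [mul_assoc, hes, mul_one, div_le_iff₀ h2p] at h1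
    linarith
  have hEA : (1 / l) * E * A = 4 ^ k * s ^ k := by
    rw [hEd, hA3, div_pow, mul_pow]
    have : (l ^ (3 / 2 - δ)) ^ k ≠ 0 := (pow_pos hB3 k).ne'
    field_simp
  have hDe : D = C ^ k * s ^ k * l ^ k := by rw [hDd, mul_pow, mul_pow]
  have hCk : 0 < C ^ k := pow_pos hC k
  have hsk : 0 < s ^ k := pow_pos hs k
  calc (∑ p ∈ (Icc 2 X).filter Nat.Prime, (hq p : ℝ) ^ k) * A
      ≤ (s * D + (|M1| * X * Real.exp (-(l ^ (δ / 16)))) * D + ((2 * Real.log 4 + 2) * X / l) * E) * A :=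
        mul_le_mul_of_nonneg_right hsum hA.le
    _ = C ^ k * (s ^ k * s) * (l ^ k * A) + C ^ k * |M1| * X * s ^ k * ((l ^ k * A) * Real.exp (-(l ^ (δ / 16)))) +
        (2 * Real.log 4 + 2) * X * ((1 / l) * E * A) := by
        rw [hDe]
        ring
    _ ≤ C ^ k * (s ^ k * s) * (2 ^ a * B2 * s) + C ^ k * |M1| * X * s ^ k * B1 +
        (2 * Real.log 4 + 2) * X * (4 ^ k * s ^ k) := by
        have e1 : C ^ k * (s ^ k * s) * (l ^ k * A) ≤ C ^ k * (s ^ k * s) * (2 ^ a * B2 * s) :=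
          mul_le_mul_of_nonneg_left hb3 (by positivity)
        have e2 : C ^ k * |M1| * X * s ^ k * ((l ^ k * A) * Real.exp (-(l ^ (δ / 16)))) ≤
            C ^ k * |M1| * X * s ^ k * B1 :=
          mul_le_mul_of_nonneg_left hb1' (by positivity)
        rw [hEA]
        linarith
    _ = (C ^ k * (2 ^ a * B2) + C ^ k * |M1| * B1 + 4 ^ k * (2 * Real.log 4 + 2)) * (X * s ^ k) := by
        rw [← hss]; ring

end Pool.Agent.P8H82.CN
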